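import Pool.Agent.Q200.VL.MainD

/-!
# MP_f569db_ag: numerically trivial cycles are the cycles whose classes degenerate to zero

Let `X` be a smooth projective variety over a field, and let `W` be a Weil cohomology theory with
coefficient field `K = W.K`. An admissible lattice is given by an extension of the cohomology
theory to a field of coefficients `F ⊇ K`, a valuation ring `O` of `F` which contains `K`, and the
`O`-span `M` of a basis of the cohomology of `X` with coefficients in `F`, such that `M` is equal to
its dual for `(x, y) ↦ tr (x * y)`, it is the sum of its even and its odd part, and the classes of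
all cycles on all powers of `X` are integral. The class of a cycle on a power of `X` degenerates to
zero if it is congruent to zero modulo the maximal ideal of `O` for an admissible lattice.

If the sign conjecture holds for `X` (the projector onto the even cohomology is algebraic), then a
cycle on a power of `X` is numerically trivial if and only if its class degenerates to zero.
If `X` satisfies the hard Lefschetz theorem, then homological and numerical equivalence coincide on
all powers of `X` if and only if the sign conjecture holds for `X` and nonzero classes of cycles on
powers of `X` do not degenerate to zero.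
-/

open CategoryTheory AlgebraicGeometry

universe u

namespace Pool.Agent.Results.MP_f569db_ag.DegenerationCriterion

open Pool.Agent.H914 Pool.Agent.H914.VarClass Pool.Agent.H914.VarClass.Obj
  Pool.Agent.H914.WeilCohomology
open Pool.Agent.H447 Pool.Agent.Y133.Half Pool.Agent.Q200.VL

theorem result {k : Type u} [Field k] {𝒱 : VarClass k} {ops : CycleOps 𝒱}
    (W : WeilCohomology.{u, 0} ops) (X : 𝒱.Obj) :
    (SignStd W X → ∀ n, ∀ j ≤ (pw X n).dim, ∀ z, (pw X n).IsCyc j z →
      (IsNumTrivial ops (pw X n) j z ↔ DegeneratesToZero W X n z)) ∧
    (∀ D, X.IsCyc 1 D → HardLefschetz W X D →
      ((∀ n, HomEqNum W (pw X n)) ↔ SignStd W X ∧ ∀ n, ∀ j ≤ (pw X n).dim, ∀ z,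
        (pw X n).IsCyc j z → DegeneratesToZero W X n z → W.cl (pw X n) z = 0)) :=
  ⟨fun hS _ _ hj _ hz => mainD hS hj hz, fun _ hD hHL => mainD' hD hHL⟩

end Pool.Agent.Results.MP_f569db_ag.DegenerationCriterion
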