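import Pool.Agent.Q59.NH.Base
import Pool.Agent.Q59.TC.Main

/-!
# Homological and numerical equivalence on powers of random Galois covers, for every Weil cohomology

Let `G` be a finite group of order prime to the prime `p`, and `𝒮 → B` a family of smooth projective
curves of genus `g ≥ 0` with disjoint sections `a_1, ..., a_r`, over a smooth geometrically connected
scheme `B` of finite type over a finite field of characteristic `p` which dominates the moduli space
of `r`-pointed curves, and `𝒞 → 𝒮` a family of Galois covers with the group `G`, ramified only over
the `a_j`, with ramification indices which divide `N`. Let `C` be the fibre of `𝒞` at a closed point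
`b` of `B`, outside a set of density zero, over the algebraic closure of its residue field. We
show that numerical and homological equivalence coincide for all cycles on `C ^ n`, for all `n` and
for every Weil cohomology, without any restriction on `N`, and so for all varieties dominated by
powers of `C`. The same holds for products of such curves for several families and of Fermat curves of
degree `N` (the case of three points on the line, where the spaces `V_i` below are lines).

**Words.** `H ^ 1 (C)` is the direct sum of the `χ ⊗ V_χ`, where `χ` runs through the irreducible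
representations of `G` and `V_χ = H ^ 1 (S, L_χ)` belongs to the local system `L_χ`. The structure
`LocalSystems` contains the numerical invariants of the family of all these local systems (of one or
of several families of covers): the local exponents `ex`, residues modulo `N`, the rank, the genus,
the dimension of the invariants and the dimension of `V_i`, the duality `star`, and the multiplicity
`mult` of `V_i` in `H ^ 1 (C)`. Let `D` be the group of the automorphisms which preserve the `V_i` and
the pairings, with determinants one. `D` is the identity component of the geometric monodromy group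
(1) if `G` is commutative and `g ≥ 3` (Boggi, Looijenga), (2) if `g` is large in terms of the degrees
of the representations of `G` (Landesman, Litt, Sawin), (3) for unramified covers and redundant
surjections onto `G` (Grunewald, Larsen, Lubotzky, Malestein), (4) for `g = 0`, `G` commutative of
odd exponent `N`, up to known isomorphisms (see `MP_e12fcd_ag.CoversTimesVarieties`,
`MP_0d42ed_ag.CoversEveryCharacteristic`). For almost all `b` the Frobenius torus of `b` contains a
maximal torus of `D` (Serre; Chi). Fix such a `b` and bases of the `V_i` of eigenvectors of the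
Frobenius, dual to each other; their elements are the letters. The cohomology of `C ^ n` has the
basis of the words of length `n` in the lines `H ^ 0`, `H ^ 2` and the copies of the letters (`Line`);
the lines of the words are separated by the commuting actions of the Frobenius and of the group
algebra of `G` on the factors, which are algebraic. So *the space spanned by the classes of the
algebraic cycles is spanned by the words which it contains*.

**Algebraic words.** A word whose class is algebraic is a Tate class; so it is annihilated by the
cocharacters of the maximal torus of `D` (`TorusInv`), and for each unit `t` its slope at the place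
given by `t` is half its length; on these words the slope of a letter of `V_i` can be replaced
by its average `slope i / dim i` (`IsTateWord`). A pair (a letter and its dual) is algebraic, and the
product of the full blocks of the spaces `V_(μ j)` is isomorphic by algebraic correspondences, up to
pairs, to the line of the Fermat variety of degree `N` whose character is `exAll`, the union of
the exponents (Schoen; Brauer). So if `A` is the family of the characters of Fermat varieties whose
lines are spanned by classes of algebraic cycles, then a word is algebraic if and only if it is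
`IsAlgebraicWord`. The family `A` (for the given Weil cohomology) is `Admissible` (Shioda, Katsura,
Aoki; Tate's theorem for Fermat surfaces); it is not known in general.

**The theorem.** For every admissible family `A`:

(1) every Tate word is made of pairs and full blocks, whose exponents together are a Tate
character of degree `N` (or none);

(2) for every Tate word `w` of `C ^ n` the word `w w` of `C ^ (2 n)` is algebraic: *the squares of all
Tate classes are algebraic*;

(3) the dual of an algebraic word is algebraic;

(4) a class on `C ^ n` which is a combination of algebraic words and orthogonal to all algebraic words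
is zero: *numerical and homological equivalence coincide on `C ^ n`.*
-/

namespace Pool.Agent.Results.MP_f569db_ag.RandomCoversEveryCohomology

open Pool.Agent.Q59.GC Pool.Agent.Q59.TC
open Pool.Agent.H916T (SurfaceTate Standard IsTate)

/-- The numerical invariants of a finite family of local systems `L_i` of finite monodromy on pointed
curves of genus `genus i`, closed under duality: `star i` is the dual local system, `rank i` is the
rank, `inv i` the dimension of the space of the global sections, `ex i` the multiset of the nonzero
local exponents, residues modulo `N` with sum zero, `dim i` the dimension of the first cohomology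
group `V_i`, and `mult i` its multiplicity in the cohomology of the cover. -/
structure LocalSystems (N : ℕ) (I : Type) where
  star : I → I
  star_star : ∀ i, star (star i) = i
  genus : I → ℕ
  genus_star : ∀ i, genus (star i) = genus i
  rank : I → ℕ
  rank_star : ∀ i, rank (star i) = rank i
  inv : I → ℕ
  inv_star : ∀ i, inv (star i) = inv i
  ex : I → Multiset (ZMod N)
  ex_ne : ∀ i, (0 : ZMod N) ∉ ex i
  ex_sum : ∀ i, (ex i).sum = 0
  ex_star : ∀ i, ex (star i) = (ex i).map fun a => -a
  dim : I → ℕ
  dim_eq : ∀ i, (dim i : ℤ) =
    Multiset.card (ex i) + 2 * (((genus i : ℤ) - 1) * rank i + inv i)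
  even_dim : ∀ i, star i = i → Even (dim i)
  mult : I → ℕ
  mult_star : ∀ i, mult (star i) = mult i

variable {N : ℕ} {I : Type}

/-- The numerical invariants of the spaces `V_i = H ^ 1 (L_i)`. -/
def LocalSystems.labels (S : LocalSystems N I) : Labels N I where
  star := S.star
  star_star := S.star_star
  orth _ := false
  orth_star _ h := absurd h (by decide)
  dim := S.dim
  dim_star i := by
    have h1 := S.dim_eq i
    have h2 := S.dim_eq (S.star i)
    rw [S.genus_star, S.rank_star, S.inv_star, S.ex_star, Multiset.card_map, ← h1] at h2
    exact_mod_cast h2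
  ex := S.ex
  half i := ((S.genus i : ℤ) - 1) * S.rank i + S.inv i
  dim_eq := S.dim_eq
  ex_ne := S.ex_ne
  ex_sum := S.ex_sum
  ex_star := S.ex_star

/-- The closure properties of the families of the characters of algebraic classes on Fermat varieties
in characteristic `p`. -/
structure Admissible (p : ℕ) (A : ∀ M : ℕ, Multiset (ZMod M) → Prop) : Prop where
  /-- members are Tate characters -/
  tate : ∀ M, 0 < M → p.Coprime M → ∀ s, A M s → IsTate p M s
  /-- pairs -/
  pair : ∀ M, 0 < M → p.Coprime M → ∀ a : ZMod M, a ≠ 0 → A M {a, -a}
  /-- surfaces -/
  surface : ∀ M, 0 < M → p.Coprime M → ∀ s, SurfaceTate p M s → A M s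
  /-- standard characters -/
  standard : ∀ M, 0 < M → p.Coprime M → ∀ q : ℕ, q.Prime → q ∣ M → ∀ s, Standard q M s → A M s
  /-- closed under union -/
  join : ∀ M, 0 < M → p.Coprime M → ∀ s t, A M s → A M t → A M (s + t)
  /-- closed under removal of a pair -/
  cancel : ∀ M, 0 < M → p.Coprime M → ∀ a s, A M (a ::ₘ -a ::ₘ s) → A M s
  /-- descent of the degree -/
  descend : ∀ M N, 0 < M → 0 < N → p.Coprime M → p.Coprime N → ∀ s : Multiset (ZMod M),
    A (N * M) (s.map fun a => ((N * a.val : ℕ) : ZMod (N * M))) → A M s

/-- A word in the letters is a Tate word if it has even length, is annihilated by the cocharacters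
of a maximal torus of `D`, and for every unit `t` its slope is half its length. -/
def IsTateWord (S : LocalSystems N I) (p : ℕ) {s : ℕ} (w : Fin s → Letter S.labels) : Prop :=
  Even s ∧ TorusInv w ∧
    ∀ t : (ZMod N)ˣ, ∑ k, slope S.labels p (t : ZMod N) (w k).1 / S.dim (w k).1 = (s : ℚ) / 2

/-- The letters of the space `V_i`. -/
def block (S : LocalSystems N I) (i : I) : Multiset (Letter S.labels) :=
  ∑ a : Fin (S.dim i), {⟨i, a⟩}

/-- The multiset `u` of letters consists of the full blocks of the `V_(μ j)` and of pairs of a letter
and its dual. -/
def MadeOf (S : LocalSystems N I) (u : Multiset (Letter S.labels)) {l : ℕ} (μ : Fin l → I) : Prop :=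
  ∃ v : Multiset (Letter S.labels), u = ∑ j, block S (μ j) + (v + v.map dual)

/-- The multiset `u` of the letters of a word consists of pairs and of full blocks whose exponents
together are empty or satisfy `A`. -/
def IsAlgebraicWord (S : LocalSystems N I) (A : Multiset (ZMod N) → Prop)
    (u : Multiset (Letter S.labels)) : Prop :=
  ∃ (l : ℕ) (μ : Fin l → I), MadeOf S u μ ∧ (exAll S.labels μ = 0 ∨ A (exAll S.labels μ))

/-- The lines of the cohomology of the curve: `H ^ 0`, `H ^ 2` (`Sum.inl`) and the copies of the
letters. -/
def Line (S : LocalSystems N I) : Type := Bool ⊕ (Σ x : Letter S.labels, Fin (S.mult x.1))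

noncomputable instance [Fintype I] (S : LocalSystems N I) : Fintype (Line S) := by
  classical
  exact inferInstanceAs (Fintype (Bool ⊕ (Σ x : (Σ i : I, Fin (S.dim i)), Fin (S.mult x.1))))

/-- The letter of a line, if there is one. -/
def Line.letter {S : LocalSystems N I} : Line S → Multiset (Letter S.labels)
  | Sum.inl _ => 0
  | Sum.inr y => {y.1}

/-- The dual line. -/
def Line.dual {S : LocalSystems N I} : Line S → Line S
  | Sum.inl b => Sum.inl (!b)
  | Sum.inr y => Sum.inr ⟨Pool.Agent.Q59.GC.dual y.1, Fin.cast
      ((congrArg S.mult (dual_fst y.1)).trans (S.mult_star y.1.1)).symm y.2⟩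

/-- A class on `C ^ n` is in the space spanned by the classes of algebraic cycles if it is a
combination of algebraic words. -/
def IsAlgebraic {S : LocalSystems N I} {n : ℕ} {K : Type} [Zero K]
    (A : Multiset (ZMod N) → Prop) (x : (Fin n → Line S) → K) : Prop :=
  ∀ w, x w ≠ 0 → IsAlgebraicWord S A (∑ k, (w k).letter)

/-- The intersection form, with constants `c w` depending on the choice of the basis vectors: the
coordinate at a word is paired with the coordinate at the dual word. -/
noncomputable def form [Fintype I] {S : LocalSystems N I} {n : ℕ} {K : Type} [Field K]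
    (c : (Fin n → Line S) → K) (x y : (Fin n → Line S) → K) : K :=
  ∑ w, c w * x w * y fun k => (w k).dual

variable {S : LocalSystems N I}

lemma dual_ne' (x : Letter S.labels) : dual x ≠ x := by
  intro h
  have h1 : S.star x.1 = x.1 := by
    have := congrArg Sigma.fst h
    rwa [dual_fst] at this
  have h2 : ((dual x).2 : ℕ) = x.2 := by rw [h]
  rw [dual_of_not (by exact Bool.false_ne_true)] at h2
  simp only [Fin.val_cast, Fin.val_rev] at h2
  have h3 := S.even_dim x.1 h1
  have h4 : (x.2 : ℕ) < S.dim x.1 := x.2.2
  have h5 : S.dim x.1 - ((x.2 : ℕ) + 1) = x.2 := h2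
  rw [Nat.even_iff] at h3
  omega

lemma map_dual_dual (v : Multiset (Letter S.labels)) : (v.map dual).map dual = v := by
  rw [Multiset.map_map]
  conv_rhs => rw [← Multiset.map_id v]
  exact Multiset.map_congr rfl fun x _ => dual_dual x

/-- the map `dual` as a homomorphism -/
def dualHom : Multiset (Letter S.labels) →+ Multiset (Letter S.labels) :=
  ⟨⟨fun s => s.map dual, Multiset.map_zero _⟩, fun s t => Multiset.map_add _ s t⟩

lemma block_dual (i : I) : (block S i).map dual = block S (S.star i) := by
  have h : (block S i).map dual = dualHom (block S i) := rfl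
  rw [h]
  unfold block
  rw [map_sum]
  have hd : S.dim i = S.dim (S.star i) := (S.labels.dim_star i).symm
  let e : Fin (S.dim i) ≃ Fin (S.dim (S.star i)) := Fin.revPerm.trans (finCongr hd)
  refine Fintype.sum_equiv e _ _ fun a => ?_
  change Multiset.map dual {(⟨i, a⟩ : Letter S.labels)} = {(⟨S.star i, e a⟩ : Letter S.labels)}
  rw [Multiset.map_singleton, dual_of_not (by exact Bool.false_ne_true)]
  rfl

lemma exAll_star {l : ℕ} (μ : Fin l → I) : exAll S.labels (fun j => S.star (μ j)) =
    (exAll S.labels μ).map fun a => -a := by
  unfold exAll
  let φ : Multiset (ZMod N) →+ Multiset (ZMod N) :=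
    ⟨⟨fun s => s.map fun a => -a, Multiset.map_zero _⟩, fun s t => Multiset.map_add _ s t⟩
  have h := map_sum φ (fun j => S.labels.ex (μ j)) Finset.univ
  change _ = φ _
  rw [h]
  exact Finset.sum_congr rfl fun j _ => S.ex_star (μ j)

lemma Line.letter_dual (x : Line S) : x.dual.letter = x.letter.map Pool.Agent.Q59.GC.dual := by
  rcases x with b | y
  · rfl
  · rfl

lemma Line.dual_dual (x : Line S) : x.dual.dual = x := by
  rcases x with b | ⟨x, c⟩
  · cases b <;> rfl
  · have h1 : Pool.Agent.Q59.GC.dual (Pool.Agent.Q59.GC.dual x) = x :=
      Pool.Agent.Q59.GC.dual_dual x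
    refine congrArg Sum.inr ?_
    refine Sigma.ext h1 ?_
    refine (Fin.heq_ext_iff (congrArg (fun y : Letter S.labels => S.mult y.1) h1)).mpr ?_
    rfl

lemma letters_dual {n : ℕ} (w : Fin n → Line S) :
    ∑ k, ((w k).dual).letter = (∑ k, (w k).letter).map dual := by
  have h := map_sum (dualHom (S := S)) (fun k => (w k).letter) Finset.univ
  change _ = dualHom _
  rw [h]
  exact Finset.sum_congr rfl fun k _ => Line.letter_dual (w k)

/-- the dual of an algebraic word -/
lemma algebraic_dual {A : Multiset (ZMod N) → Prop} (hneg : ∀ s, s ≠ 0 → A s →
    A (s.map fun a => -a)) {u : Multiset (Letter S.labels)} (h : IsAlgebraicWord S A u) :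
    IsAlgebraicWord S A (u.map dual) := by
  obtain ⟨l, μ, ⟨v, rfl⟩, hA⟩ := h
  refine ⟨l, fun j => S.star (μ j), ⟨v.map dual, ?_⟩, ?_⟩
  · rw [Multiset.map_add, Multiset.map_add, map_dual_dual]
    congr 1
    have h := map_sum (dualHom (S := S)) (fun j => block S (μ j)) Finset.univ
    change dualHom _ = _
    rw [h]
    exact Finset.sum_congr rfl fun j _ => block_dual (μ j)
  · rw [exAll_star]
    by_cases h0 : exAll S.labels μ = 0
    · left; rw [h0, Multiset.map_zero]
    · right
      exact hneg _ h0 (hA.resolve_left h0)

/-- **Homological and numerical equivalence on powers of random Galois covers, for every Weil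
cohomology.** -/
theorem result (p : ℕ) (hp : p.Prime) (N : ℕ) [NeZero N] (hpN : p.Coprime N) (I : Type) [Fintype I]
    (S : LocalSystems N I) (A : ∀ M : ℕ, Multiset (ZMod M) → Prop) (hA : Admissible p A) :
    (∀ (s : ℕ) (w : Fin s → Letter S.labels), IsTateWord S p w →
      ∃ (l : ℕ) (μ : Fin l → I), MadeOf S (∑ k, {w k}) μ ∧
        (exAll S.labels μ = 0 ∨ IsTate p N (exAll S.labels μ))) ∧
    (∀ (s : ℕ) (w : Fin s → Letter S.labels), IsTateWord S p w →
      IsAlgebraicWord S (A N) (∑ k, {w k} + ∑ k, {w k})) ∧
    (∀ u : Multiset (Letter S.labels),
      IsAlgebraicWord S (A N) u ↔ IsAlgebraicWord S (A N) (u.map dual)) ∧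
    ∀ (n : ℕ) (K : Type) [Field K] (c : (Fin n → Line S) → K), (∀ w, c w ≠ 0) →
      ∀ x : (Fin n → Line S) → K, IsAlgebraic (A N) x →
        (∀ y : (Fin n → Line S) → K, IsAlgebraic (A N) y → form c x y = 0) → x = 0 := by
  classical
  have hN : 0 < N := NeZero.pos N
  have hC : Pool.Agent.Q59.NH.Closed p A :=
    ⟨hA.pair, hA.surface, hA.standard, hA.join, hA.cancel, hA.descend⟩
  have hneg : ∀ s : Multiset (ZMod N), s ≠ 0 → A N s → A N (s.map fun a => -a) := by
    intro s hs h
    exact (hC.neg hp hpN (hA.tate N hN hpN _ h) hs).mpr h
  have h1 : ∀ (s : ℕ) (w : Fin s → Letter S.labels), IsTateWord S p w →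
      ∃ (l : ℕ) (μ : Fin l → I), MadeOf S (∑ k, {w k}) μ ∧
        IsTate p N (exAll S.labels μ) := by
    intro s w ⟨hev, htor, hsl⟩
    obtain ⟨l, q, μ, e, hd⟩ := exists_decomp dual_ne' htor
    refine ⟨l, μ, ⟨∑ k : Fin q, {w (e (Sum.inr (k, 0)))}, ?_⟩, ?_⟩
    · have e1 : ∑ k, ({w k} : Multiset (Letter S.labels)) = ∑ z, {w (e z)} :=
        (Equiv.sum_comp e fun k => ({w k} : Multiset (Letter S.labels))).symm
      rw [e1, Fintype.sum_sum_type, Fintype.sum_sigma, Fintype.sum_prod_type]
      congr 1
      · refine Finset.sum_congr rfl fun j _ => ?_
        unfold block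
        exact Finset.sum_congr rfl fun a _ => by rw [hd.2.1 j a]
      · have e2 : (∑ k : Fin q, ({w (e (Sum.inr (k, 0)))} : Multiset (Letter S.labels))).map dual =
            ∑ k : Fin q, {dual (w (e (Sum.inr (k, 0))))} := by
          have h := map_sum (dualHom (S := S))
            (fun k : Fin q => ({w (e (Sum.inr (k, 0)))} : Multiset (Letter S.labels))) Finset.univ
          exact h
        rw [e2, ← Finset.sum_add_distrib]
        refine Finset.sum_congr rfl fun k _ => ?_
        rw [Fin.sum_univ_two, hd.2.2 k]
    · have h0 := exAll_zero_notMem (Λ := S.labels) μ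
      have hexc : ∀ t : (ZMod N)ˣ, excess p (t : ZMod N) (exAll S.labels μ) = 0 := by
        intro t
        have e1 := hsl t
        have e2 : ∑ k, slope S.labels p (t : ZMod N) (w k).1 / S.dim (w k).1 =
            ∑ k, slope S.labels p (t : ZMod N) (w k).1 / S.labels.dim (w k).1 := rfl
        rw [e2, sum_slope hpN, sum_decomposed hd
          (fun i => excess p (t : ZMod N) (S.labels.ex i)) fun i => by
            rw [S.labels.ex_star]
            exact excess_star hpN t _ (S.labels.ex_ne i), Fintype.card_fin] at e1
        rw [excess_exAll]
        linarith
      have hq := dim_decomposed e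
      rw [Fintype.card_fin] at hq
      exact isTate_of_excess hpN h0 (even_exAll' μ hq hev)
        (exAll_sum_zero (Λ := S.labels) μ) hexc
  refine ⟨fun s w hw => ?_, fun s w hw => ?_, fun u => ⟨fun h => algebraic_dual hneg h,
    fun h => ?_⟩, fun n K _ c hc x hx hy => ?_⟩
  · obtain ⟨l, μ, hm, ht⟩ := h1 s w hw
    exact ⟨l, μ, hm, Or.inr ht⟩
  · obtain ⟨l, μ, ⟨v, hv⟩, ht⟩ := h1 s w hw
    let μ' : Fin (l + l) → I := Fin.append μ μ
    have e1 : exAll S.labels μ' = exAll S.labels μ + exAll S.labels μ := by
      unfold exAll
      rw [Fin.sum_univ_add]
      congr 1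
      · exact Finset.sum_congr rfl fun j _ => congrArg S.labels.ex (Fin.append_left μ μ j)
      · exact Finset.sum_congr rfl fun j _ => congrArg S.labels.ex (Fin.append_right μ μ j)
    have e2 : ∑ j, block S (μ' j) = ∑ j, block S (μ j) + ∑ j, block S (μ j) := by
      rw [Fin.sum_univ_add]
      congr 1
      · exact Finset.sum_congr rfl fun j _ => congrArg (block S) (Fin.append_left μ μ j)
      · exact Finset.sum_congr rfl fun j _ => congrArg (block S) (Fin.append_right μ μ j)
    refine ⟨l + l, μ', ⟨v + v, ?_⟩, ?_⟩
    · rw [hv, e2, Multiset.map_add]
      abel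
    · by_cases h0 : exAll S.labels μ' = 0
      · exact Or.inl h0
      right
      rw [e1] at h0 ⊢
      refine hC.parity hp hpN (Pool.Agent.Q59.RL.IsTate.add ht ht) h0 fun a => ?_
      rw [Multiset.countP_add]
      exact ⟨_, rfl⟩
  · have h2 := algebraic_dual hneg h
    rwa [map_dual_dual] at h2
  · funext w
    by_contra hw
    have h2 := hx w hw
    have h3 : IsAlgebraic (A N) (Pi.single (fun k => (w k).dual) (1 : K)) := by
      intro w' hw'
      have h4 : w' = fun k => (w k).dual := by
        by_contra h
        exact hw' (Pi.single_eq_of_ne h _)
      rw [h4, letters_dual]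
      exact algebraic_dual hneg h2
    have h5 := hy _ h3
    unfold form at h5
    rw [Finset.sum_eq_single w] at h5
    · rw [Pi.single_eq_same, mul_one] at h5
      exact (mul_ne_zero (hc w) hw) h5
    · intro w' _ hne
      rw [Pi.single_eq_of_ne, mul_zero]
      intro h
      apply hne
      funext k
      have h4 := congrFun h k
      rw [← Line.dual_dual (w' k), ← Line.dual_dual (w k)]
      exact congrArg Line.dual h4
    · intro h; exact absurd (Finset.mem_univ w) h

end Pool.Agent.Results.MP_f569db_ag.RandomCoversEveryCohomology
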