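import Pool.Agent.Q55.Rate.Main

/-!
# The rate of growth of the cycles on the powers of a variety modulo numerical equivalence

Let `X` be a smooth projective variety over an algebraically closed field and let `r n` be the rank
of the group of the cycles of all codimensions on `X^n` modulo numerical equivalence; these numbers
depend on the intersection numbers of the cycles only.

The theorem. The numbers `(r n) ^ (1 / n)` converge to a real number `ρ`, and `r n ≤ ρ ^ n` for all
`n`. For every Weil cohomology theory `H`, `b` being the sum of the Betti numbers of `X` for `H`, we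
have `ρ ≤ b`, and the following are equivalent:

* `ρ = b`;
* every combination of algebraic correspondences from a power `X^m` to itself which is numerically
  equivalent to zero is nilpotent as an operator on the cohomology;
* the only idempotent among these operators is zero;
* `r (2 n) ≥ b ^ (2 n) / (n + 1) ^ (b ^ 2)` for all `n`.

So `r (2 n)` differs from its trivial upper bound `b ^ (2 n)` by a polynomial factor, or it is
exponentially smaller. More precisely, each numerically trivial idempotent `e` on `H(X^m)` has an
even rank `2 s`, and `ρ ^ m ≤ b ^ m - 2 s`. The equality `ρ = b` holds if the conjecture D holds for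
all powers of `X`, and also if the sign conjecture holds for `X`.

Since `ρ` does not depend on the cohomology theory: if for one theory homological and numerical
equivalence coincide on the powers of `X` (or only the weaker nilpotency statement holds), then the
sum of the Betti numbers of `X` for this theory is `ρ`, and for every other theory it is at least
`ρ`, with equality if and only if the nilpotency statement holds for this theory too.

Algebraic means here: a linear combination of classes of cycles, of any codimensions, with
coefficients in the coefficient field.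
-/

open CategoryTheory AlgebraicGeometry Filter Topology

universe u v

namespace Pool.Agent.Results.MP_f569db_ag.RateLaw

open Pool.Agent.H914 Pool.Agent.H914.VarClass Pool.Agent.H914.VarClass.Obj
  Pool.Agent.H914.WeilCohomology Pool.Agent.Y133.Half Pool.Agent.Q55.Rate

variable {k : Type u} [Field k] {𝒱 : VarClass k} {ops : CycleOps 𝒱}

/-- The rank of the cycles on `X^(n+1)` modulo numerical equivalence, for `n = 0, 1, 2, …`. -/
noncomputable def rank (ops : CycleOps 𝒱) (X : 𝒱.Obj) (n : ℕ) : ℕ := cycRank ops (pw X n)

/-- The bound `b ^ (2 n) ≤ r (2 n) (n + 1) ^ (b ^ 2)` for all `n ≥ 1`. -/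
def PolynomiallyClose (W : WeilCohomology.{u, v} ops) (X : 𝒱.Obj) : Prop :=
  ∀ n, totalBetti W X ^ (2 * (n + 1)) ≤ rank ops X (2 * n + 1) * (n + 2) ^ (totalBetti W X ^ 2)

/-- The four equivalent statements. -/
def Equivalences (W : WeilCohomology.{u, v} ops) (X : 𝒱.Obj) (ρ : ℝ) : Prop :=
  List.TFAE [ρ = totalBetti W X, NumTrivialNilpotent W X, NoNumTrivialIdempotent W X,
    PolynomiallyClose W X]

/-- Every numerically trivial idempotent `e` on the cohomology of `X^(m+1)` has an even rank, and
`ρ ^ (m + 1) ≤ b ^ (m + 1) - rank e`. -/
def IdempotentBounds (W : WeilCohomology.{u, v} ops) (X : 𝒱.Obj) (ρ : ℝ) : Prop :=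
  ∀ m : ℕ, IdempotentBound (IsNumTrivialOp W (pw X m)) ρ (totalBetti W X) (m + 1)

/-- The sign conjecture for `X`, or the conjecture D for all powers of `X`. -/
def SignOrD (W : WeilCohomology.{u, v} ops) (X : 𝒱.Obj) : Prop :=
  SignAlgebraic W X ∨ ∀ n, HomEqNum W (pw X n)

/-- **The rate of growth of the rank of the cycles on the powers of `X` modulo numerical
equivalence.** It is maximal if and only if the numerically trivial correspondences of the powers are
nilpotent. -/
theorem result (h : Nonempty (WeilCohomology.{u, v} ops)) (X : 𝒱.Obj) :
    ∃ ρ : ℝ, 0 ≤ ρ ∧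
      Tendsto (fun n => (rank ops X n : ℝ) ^ ((1 : ℝ) / (n + 1))) atTop (𝓝 ρ) ∧
      (∀ n, (rank ops X n : ℝ) ≤ ρ ^ (n + 1)) ∧
      ∀ W : WeilCohomology.{u, v} ops, ρ ≤ totalBetti W X ∧ Equivalences W X ρ ∧
        IdempotentBounds W X ρ ∧ (SignOrD W X → ρ = totalBetti W X) := by
  obtain ⟨W₀⟩ := h
  obtain ⟨ρ, h0, h1, h2⟩ := exists_cyc_rate W₀ X
  exact ⟨ρ, h0, h1, h2, fun W => main h0 h1 h2 W⟩

end Pool.Agent.Results.MP_f569db_ag.RateLaw
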