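import Mathlib
import Pool.Agent.Q219.UZ.DMain
import Pool.Agent.Q219.UZ.Main

/-!
# The conjecture D for `A × Z`, with `Z` an arbitrary variety and `A` outside of a thin subset of a
Newton stratum

Fix a prime `p`, a nonempty finite set `κ`, dimensions `g i ≥ 1` and, for each `i`, a symmetric
Newton polygon with slopes `s i j` and `1 - s i j` (`j < g i`, increasing in `j`, between `0` and
`1 / 2`, with integral break points: `IsPolygon (s i)`) whose smallest slope is at most `σ < 1 / 2`;
so it is any Newton polygon that is not the supersingular one. `NewtonStratum g s p a` is the set
of families of isogeny classes of abelian varieties `A_i` of dimension `g i` over the field with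
`p ^ a` elements having these Newton polygons: by the theorem of Honda and Tate it consists of
families of characteristic polynomials of Frobenius. Let `devSum (s i)` be the sum of the numbers
`1 - 2 s i j`, `j < g i`, and let `0 < δ ≤ 1` be a number such that `δ g i ≤ devSum (s i)` for all
`i`. So `1 - δ` is twice the largest of the mean slopes of the first halves of the polygons, and
`δ = 1` if the `A_i` are ordinary.

We prove that the number of elements of `NewtonStratum g s p a` tends to infinity with `a`, and that
for all members, except for at most

  `C * a * p ^ (- a (1 - 2 σ) / 6) * |NewtonStratum g s p a|`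

(`C` depends on `p`, `g`, `s`, `σ` only), the following is true.

Let `𝒜` be the class of the abelian varieties `A` over an algebraic closure `k` of the field with `p`
elements which over the field with `Q = p ^ (a s')` elements, for some `s' > 0`, are isogenous to a
product of powers of the `A_i`, of any dimension, and let `X` be an element of `𝒜` in which all `A_i`
occur, for instance the product of the `A_i`. Let `Z` be **any** smooth projective variety over `k`,
coming from the field with `Q` elements. Nothing is assumed on the Frobenius eigenvalues of `Z`: they
may be related to those of `A` in any way. Let `e` be a real number such that `Z` has level at most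
`e`, that is the slopes of `H ^ w (Z)` lie between `(w - e) / 2` and `(w + e) / 2`; by Poincare duality
`e = dim Z` is always possible. Let `n = N + 1` be the smallest integer `≥ 1` with
`(n + 1) δ > e`; so one can take `n = dim Z` if the `A_i` are ordinary and `n ≤ dim Z / δ + 1` in
general. Then, for every Weil cohomology (`ConjectureDTimes`):

* **the conjecture D holds for `A × Z` for all `A` in `𝒜`, of arbitrary dimension, if and only if it
  holds for the single variety `X ^ n × Z`**, in fact for the cycles on `X ^ n × Z` of codimension at
  most `dim Z + (n - ⌊e⌋) / 2`, which is `dim Z` if the `A_i` are ordinary. More precisely, D is true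
  for the cycles of codimension `c` on `A × Z` if it is true for the cycles of codimension `c'` on
  `X ^ n × Z` for all such `c' ≤ c`.
* (`ConjectureDTimesCurves`) If `δ > 1 / 3` then **D is true for all cycles on `A × Z` for all curves
  `Z` and all `A` in `𝒜`**: only divisors on `X × X × Z` matter, for which D is the theorem of
  Matsusaka. This is true for the powers of the curve itself: the Jacobian of `Z` can have factors in
  `𝒜`, and its other factors are arbitrary.

In the formal statement `IsTriple` lists what is used: that Frobenius has degree `Q ^ dim`, acts on
the cohomology of `Z` with eigenvalues which are Weil numbers (Deligne), and acts on a cycle of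
codimension `i` as `Q ^ i`, after passing to a power; that the cohomology of `A`, `X ^ n`,
`X ^ n × A` is generated by `H ^ 1`, where Frobenius has the given eigenvalues, and the theorem of Tate
on divisors on them. The first half of the theorem is not conditional in the usual sense: it replaces
infinitely many varieties of unbounded dimension by one variety, for each `Z`.

What is known in this direction are results where the Frobenius eigenvalues of `Z` are independent of
those of `A`, or have small rank or small width, and D for `A × Z` is equivalent to D for `Z` (the
starting files `AlmostAllProducts` and `FiveAndSurfacesTimesVarieties` in this folder). Here the cycles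
on `A × Z` need not be combinations of products of cycles on `A` and `Z`.

The proof. Let `x` be a numerically trivial cycle on `A × Z`. A component of its class in the tensor
product of an eigenspace of `H(A)` and of `H ^ w (Z)` gives a relation between roots `z j` of the
Frobenius polynomials and an eigenvalue `ρ` of `Z`. One removes the pairs of roots with product `Q`.
For the remaining `m` roots the Galois group contains the changes of signs, that is the automorphisms
which replace one of the roots by its complex conjugate (this is what the sieve provides), so that some
conjugate of the relation has the largest possible `p`-adic valuation, which is at least `m δ / 2` away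
from the middle; as the slopes of `ρ` are at most `e / 2` away from the middle, `m ≤ e / δ`. So the
reduced product is an eigenvalue on `H ^ m (X ^ n)`. The eigenvectors of `H(A)` and of `H ^ m (X ^ n)`
differ by a Tate class on `X ^ n × A`, which is a polynomial in divisors; as a correspondence it maps
`x` to numerically trivial cycles on `X ^ n × Z`, without losing the component.
-/

set_option autoImplicit false

namespace Pool.Agent.Results.MP_f569db_ag.UniversalFactor

open Polynomial Pool.Agent.Q219.NS Pool.Agent.Q219.NW Pool.Agent.Q219.UZ

/-- The theorem for the family of isogeny classes over the field with `q` elements with the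
Frobenius polynomials `F i`, of dimension `g i` and slopes `s i j`. -/
def Holds {κ : Type} (g : κ → ℕ) (s : ∀ i, Fin (g i) → ℚ) (q : ℕ) (F : κ → ℤ[X]) : Prop :=
  ∀ δ : ℝ, 0 < δ → δ ≤ 1 → (∀ i, δ * g i ≤ devSum (s i)) →
    ConjectureDTimes δ q F ∧ (1 < 3 * δ → ConjectureDTimesCurves q F)

/-- **The conjecture D for `A × Z`, for all `Z`, for the abelian varieties `A` outside of a thin subset
of a Newton stratum.** -/
theorem result {κ : Type} [Fintype κ] [Nonempty κ] (p : ℕ) [Fact p.Prime]
    -- dimensions and Newton polygons
    (g : κ → ℕ) (hg : ∀ i, 1 ≤ g i) (s : ∀ i, Fin (g i) → ℚ) (hs : ∀ i, IsPolygon (s i))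
    -- the smallest slopes
    (σ : ℚ) (hσ : ∀ i (h : 0 < g i), s i ⟨0, h⟩ ≤ σ) (hσ2 : σ < 1 / 2) :
    (∀ N : ℕ, ∃ a₀ : ℕ, ∀ a, a₀ ≤ a →
      (NewtonStratum g s p a).Finite ∧ N ≤ (NewtonStratum g s p a).ncard) ∧
    ∃ C : ℝ, 0 < C ∧ ∀ a : ℕ, 0 < a →
      ({F ∈ NewtonStratum g s p a | ¬ Holds g s (p ^ a) F}.ncard : ℝ) ≤
        C * (a * (p : ℝ) ^ (-((a : ℝ) * (1 - 2 * σ) / 6))) *
          ((NewtonStratum g s p a).ncard : ℝ) := by
  obtain ⟨h1, C, hC, h2⟩ := count_bounded p g hg s hs σ hσ hσ2
  refine ⟨h1, C, hC, fun a ha => h2 a ha _ fun f hf δ hδ0 hδ1 hδ => ?_⟩
  have hp : p.Prime := Fact.out
  have hq : 1 < p ^ a := Nat.one_lt_pow ha.ne' hp.one_lt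
  exact ⟨conjectureDTimes (hf δ hδ) hδ0 hδ1 hq, fun h3 =>
    conjectureDTimesCurves (hf δ hδ) hδ1 hq h3⟩

end Pool.Agent.Results.MP_f569db_ag.UniversalFactor
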